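import Pool.Agent.H79.RV.StmR
import Pool.Agent.H79.RT.HcT

/-!
# MP_a7284e_an, project RV, row P3: the sharp cut-offs and the dyadic sums
-/

set_option autoImplicit false

namespace Pool.Agent.H42.RV

open MeasureTheory FourierTransform Filter Topology Finset Classical ENNReal
open Pool.Agent.H73.Hyp
open Pool.Agent.H79.RT Pool.Agent.H79.RU Pool.Agent.H79.RV

/-- the band limited case -/
theorem cmpBand {M : ℕ} {g : L2} (h : Band M g) (K : Finset ℤ) :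
    ∃ L L' : ℕ, Maj K (fun k => Hc k g - Xs L L' k g) (6928 * ‖g‖ ^ 2) := by
  obtain ⟨L, hL1, hL2⟩ : ∃ L : ℕ, (∀ k ∈ K, ∀ m ∈ Ico (-(M : ℤ)) M,
      -(L : ℤ) ≤ k - m ∧ k - m ≤ L) ∧ K.card * ‖Ep (Uf 0) (-L) g‖ ^ 2 ≤ ‖g‖ ^ 2 := by
    have h1 : ∀ᶠ L : ℕ in atTop, ∀ k ∈ K, ∀ m ∈ Ico (-(M : ℤ)) M,
        -(L : ℤ) ≤ k - m ∧ k - m ≤ L := by
      rw [Finset.eventually_all]
      intro k _
      filter_upwards [eventually_ge_atTop (k.natAbs + M)] with L hL m hm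
      rw [mem_Ico] at hm
      omega
    exact (h1.and (ev_small 0 g K.card)).exists
  obtain ⟨L', hL3, hL4⟩ : ∃ L' : ℕ, (∀ k ∈ K, (L : ℤ) + k.natAbs + 2 ≤ L') ∧
      (4 * K.card) * ‖Ep (Uf 1) (-L') g‖ ^ 2 ≤ ‖g‖ ^ 2 := by
    have h1 : ∀ᶠ L' : ℕ in atTop, ∀ k ∈ K, (L : ℤ) + k.natAbs + 2 ≤ L' := by
      rw [Finset.eventually_all]
      intro k _
      filter_upwards [eventually_ge_atTop (L + k.natAbs + 2)] with L' hL'
      omega
    exact (h1.and (ev_small 1 g (4 * K.card))).exists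
  set Y : L2 := ∑ i ∈ Ico (-(L : ℤ)) L, Dp (Uf 0) i (Ep (Uf 1) (-L') g) with hY
  have hYn : K.card * ‖Y‖ ^ 2 ≤ ‖g‖ ^ 2 := by
    have h1 : ‖Y‖ ≤ 2 * ‖Ep (Uf 1) (-L') g‖ := by
      rw [hY, sum_Dp _ (by omega)]
      refine (norm_sub_le _ _).trans ?_
      have a1 := Ep_norm_le (Uf 0) L (Ep (Uf 1) (-L') g)
      have a2 := Ep_norm_le (Uf 0) (-L) (Ep (Uf 1) (-L') g)
      linarith
    have h2 : ‖Y‖ ^ 2 ≤ 4 * ‖Ep (Uf 1) (-L') g‖ ^ 2 := by
      have := pow_le_pow_left₀ (norm_nonneg _) h1 2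
      rw [mul_pow] at this
      linarith
    have h3 : (0 : ℝ) ≤ K.card := Nat.cast_nonneg _
    nlinarith [mul_le_mul_of_nonneg_left h2 h3]
  have m1 : Maj K (fun k => Hc k g - Fs M k g) (1154 * ‖g‖ ^ 2) := Maj.of_sum (Hc_Fs h K)
  have m2 : Maj K (fun _ : ℤ => Ep (Uf 0) (-L) g) (‖g‖ ^ 2) := Maj.of_sum (by
    rw [sum_const, nsmul_eq_mul]; exact hL2)
  have m3 : Maj K (fun k => ∑ i ∈ Ico (-(L : ℤ)) L,
      Dp (Uf 0) i (Pc 1 (k - i) g - Ep (Uf 1) (k - i + 1) g)) (576 * ‖g‖ ^ 2) :=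
    Maj.of_sum (step3 L g K)
  have m4 : Maj K (fun _ : ℤ => Y) (‖g‖ ^ 2) := Maj.of_sum (by
    rw [sum_const, nsmul_eq_mul]; exact hYn)
  refine ⟨L, L', ((m1.add (m2.add (m3.add m4))).congr ?_).mono ?_⟩
  · intro k hk
    have e1 := Fs_eq h k L (hL1 k hk)
    have e2 := Xs_eq L L' k g (hL3 k hk)
    have e3 : Y = (∑ i ∈ Ico (-(L : ℤ)) L, Dp (Uf 0) i (Ep (Uf 1) (k - i + 1) g)) -
        Xs L L' k g := by
      rw [e2, hY, ← sum_sub_distrib]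
      refine sum_congr rfl fun i _ => ?_
      rw [map_sub]; abel
    have e4 : (∑ i ∈ Ico (-(L : ℤ)) L,
        Dp (Uf 0) i (Pc 1 (k - i) g - Ep (Uf 1) (k - i + 1) g)) +
        ∑ i ∈ Ico (-(L : ℤ)) L, Dp (Uf 0) i (Ep (Uf 1) (k - i + 1) g) =
        ∑ i ∈ Ico (-(L : ℤ)) L, Dp (Uf 0) i (Pc 1 (k - i) g) := by
      rw [← sum_add_distrib]
      refine sum_congr rfl fun i _ => ?_
      rw [map_sub]; abel
    have e5 : (∑ i ∈ Ico (-(L : ℤ)) L,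
        Dp (Uf 0) i (Pc 1 (k - i) g - Ep (Uf 1) (k - i + 1) g)) + Y =
        (∑ i ∈ Ico (-(L : ℤ)) L, Dp (Uf 0) i (Pc 1 (k - i) g)) - Xs L L' k g := by
      rw [← e4, e3]
      abel
    rw [e5, add_sub_assoc', ← e1]
    abel
  · linarith

/-- row P3 -/
theorem cmp : SCmp := by
  refine ⟨120000, by norm_num, fun f K => ?_⟩
  have h1 : ∀ᶠ M : ℕ in atTop, K.card * ‖f - (Pc 1 M f - Pc 1 (-M) f)‖ ^ 2 ≤ ‖f‖ ^ 2 := by
    rcases eq_or_ne f 0 with rfl | hf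
    · exact Filter.Eventually.of_forall fun L => by simp
    · have h1 := (((((Pc_tendsto 1 f).sub (Pc_tendsto_zero 1 f)).const_sub f).norm.pow 2).const_mul
        (K.card : ℝ))
      rw [sub_zero, sub_self, norm_zero, zero_pow two_ne_zero, mul_zero] at h1
      have h2 : 0 < ‖f‖ ^ 2 := by
        have := norm_pos_iff.2 hf
        positivity
      filter_upwards [h1.eventually_lt_const h2] with L hL
      exact hL.le
  obtain ⟨M, hM⟩ := h1.exists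
  set g := Pc 1 M f - Pc 1 (-M) f with hg
  have hb : Band M g := by
    constructor
    · rw [hg, map_sub, Pc_idem, Pc_of_ge 1 (show -(M : ℤ) ≤ M by omega)]
    · rw [hg, map_sub, Pc_idem, Pc_of_le 1 (show -(M : ℤ) ≤ M by omega), sub_self]
  have hgn : ‖g‖ ^ 2 ≤ 4 * ‖f‖ ^ 2 := by
    have a1 := Pc_norm_le 1 M f
    have a2 := Pc_norm_le 1 (-M) f
    have a3 : ‖g‖ ≤ 2 * ‖f‖ := (norm_sub_le _ _).trans (by linarith)
    have := pow_le_pow_left₀ (norm_nonneg _) a3 2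
    rw [mul_pow] at this
    linarith
  obtain ⟨L, L', m1⟩ := cmpBand hb K
  have m2 : Maj K (fun k => Hc k (f - g)) (‖f‖ ^ 2) := by
    refine Maj.of_sum ?_
    refine (sum_le_sum fun k _ => pow_le_pow_left₀ (norm_nonneg _)
      (Pi_norm_le (hyp_meas k) (f - g)) 2).trans ?_
    rw [sum_const, nsmul_eq_mul]
    exact hM
  have m3 : Maj K (fun k => Xs L L' k (g - f)) (‖f‖ ^ 2) := by
    refine Maj.of_sum ((sum_le_sum fun k _ => hct_Xs_norm L L' k (g - f)).trans ?_)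
    rw [sum_const, nsmul_eq_mul, norm_sub_rev]
    exact hM
  refine ⟨L, L', ((m1.add (m2.add m3)).congr ?_).mono ?_⟩
  · intro k _
    have e1 : Hc k (f - g) = Hc k f - Hc k g := map_sub _ _ _
    have e2 : Xs L L' k g = Xs L L' k (g - f) + Xs L L' k f := by
      rw [← hct_Xs_add]
      congr 1
      abel
    rw [e1, e2]
    abel
  · have h3 : (0 : ℝ) ≤ ‖f‖ ^ 2 := sq_nonneg _
    linarith

end Pool.Agent.H42.RV
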